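import Pool.Agent.Q73.NG.Null

set_option autoImplicit false

/-!
The Green function of the Cantor set as a uniform limit.
-/

namespace Pool.Agent.Q73.NG

open MeasureTheory Filter Topology Set
open Pool.Agent.Helper973.KG

noncomputable section

/-- The quadratic polynomial on `ℂ`. -/
def fc (G : ℝ) (z : ℂ) : ℂ := (G : ℂ) * (z ^ 2 - 1) + 1

/-- The iterates on `ℂ`. -/
def Fc (G : ℕ → ℝ) : ℕ → ℂ → ℂ
  | 0, z => z
  | j + 1, z => fc (G j) (Fc G j z)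

lemma fc_ofReal (G w : ℝ) : fc G (w : ℂ) = ((fq G w : ℝ) : ℂ) := by
  unfold fc fq
  push_cast
  ring

lemma Fc_ofReal (G : ℕ → ℝ) (j : ℕ) (w : ℝ) : Fc G j (w : ℂ) = ((Fk G 0 j w : ℝ) : ℂ) := by
  induction j with
  | zero => rfl
  | succ j ih =>
    show fc (G j) (Fc G j (w : ℂ)) = _
    rw [ih, fc_ofReal, Fk_succ_right, zero_add]

lemma cont_Fc (G : ℕ → ℝ) (j : ℕ) : Continuous (Fc G j) := by
  induction j with
  | zero => exact continuous_id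
  | succ j ih =>
    show Continuous (fun z => fc (G j) (Fc G j z))
    unfold fc
    fun_prop

/-- Truncated logarithm of the modulus. -/
def Lam (ζ : ℂ) : ℝ := Real.log (max 1 ‖ζ‖)

lemma cont_Lam : Continuous Lam := by
  unfold Lam
  apply Continuous.log (by fun_prop)
  intro ζ
  have : (1 : ℝ) ≤ max 1 ‖ζ‖ := le_max_left _ _
  positivity

lemma Lam_step {G : ℝ} (hG : 2 < G) (ζ : ℂ) : |Lam (fc G ζ) - 2 * Lam ζ| ≤ Real.log (3 * G) := by
  set M : ℝ := max 1 ‖ζ‖ with hM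
  set N : ℝ := max 1 ‖fc G ζ‖ with hN
  have hM1 : 1 ≤ M := le_max_left _ _
  have hN1 : 1 ≤ N := le_max_left _ _
  have hζ : ‖ζ‖ ≤ M := le_max_right _ _
  have hζ0 := norm_nonneg ζ
  have hGn : ‖(G : ℂ)‖ = G := by
    rw [Complex.norm_real, Real.norm_of_nonneg (by linarith)]
  have hGn1 : ‖((G : ℂ) - 1)‖ = G - 1 := by
    rw [show ((G : ℂ) - 1) = ((G - 1 : ℝ) : ℂ) by push_cast; ring, Complex.norm_real,
      Real.norm_of_nonneg (by linarith)]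
  have hfc : fc G ζ = (G : ℂ) * ζ ^ 2 - ((G : ℂ) - 1) := by unfold fc; ring
  have hup : ‖fc G ζ‖ ≤ G * ‖ζ‖ ^ 2 + (G - 1) := by
    rw [hfc]
    refine (norm_sub_le _ _).trans ?_
    rw [norm_mul, norm_pow, hGn, hGn1]
  have hlow : G * ‖ζ‖ ^ 2 - (G - 1) ≤ ‖fc G ζ‖ := by
    rw [hfc]
    refine le_trans ?_ (norm_sub_norm_le _ _)
    rw [norm_mul, norm_pow, hGn, hGn1]
  have h1 : N ≤ 3 * G * M ^ 2 := by
    rw [hN]
    apply max_le
    · nlinarith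
    · refine hup.trans ?_
      have e1 : ‖ζ‖ ^ 2 ≤ M ^ 2 := by gcongr
      have e2 : 1 ≤ M ^ 2 := by nlinarith
      have hG0 : 0 ≤ G := by linarith
      nlinarith [mul_nonneg hG0 (sub_nonneg.mpr e1), mul_nonneg hG0 (sub_nonneg.mpr e2)]
  have h2 : M ^ 2 ≤ 3 * N := by
    rcases le_total (‖ζ‖ ^ 2) 3 with h | h
    · have : M ^ 2 ≤ 3 := by
        rcases le_total 1 ‖ζ‖ with h3 | h3
        · rw [hM, max_eq_right h3]; exact h
        · rw [hM, max_eq_left h3]; norm_num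
      linarith
    · have h3 : 1 ≤ ‖ζ‖ := by nlinarith
      rw [hM, max_eq_right h3]
      have h4 : ‖fc G ζ‖ ≤ N := le_max_right _ _
      nlinarith
  have hMp : 0 < M := by linarith
  have hNp : 0 < N := by linarith
  unfold Lam
  rw [← hM, ← hN, abs_le]
  have hlog2 : 2 * Real.log M = Real.log (M ^ 2) := by
    rw [Real.log_pow]; norm_num
  rw [hlog2]
  constructor
  · have h3 : Real.log (M ^ 2) ≤ Real.log (3 * N) := Real.log_le_log (by positivity) h2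
    rw [Real.log_mul (by norm_num) hNp.ne'] at h3
    have h4 : Real.log 3 ≤ Real.log (3 * G) := Real.log_le_log (by norm_num) (by linarith)
    linarith
  · have h3 : Real.log N ≤ Real.log (3 * G * M ^ 2) := Real.log_le_log hNp h1
    rw [Real.log_mul (by positivity) (by positivity)] at h3
    linarith

lemma log_three_Gp (k : ℕ) : Real.log (3 * Gp k) ≤ k + 8 := by
  have h1 := log_Gp_le k
  have h2 := two_lt_Gp k
  have h3 : 3 * Gp k ≤ 2 * Gp k * Real.exp 1 := by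
    have := Real.add_one_le_exp (1 : ℝ)
    nlinarith
  have h4 := Real.log_le_log (by linarith) h3
  rw [Real.log_mul (by linarith) (Real.exp_pos 1).ne', Real.log_exp] at h4
  linarith

/-- The bounds are summable. -/
lemma summable_bd : Summable (fun s : ℕ => ((s : ℝ) + 8) / 2 ^ (s + 1)) := by
  have h1 : Summable (fun s : ℕ => (s : ℝ) ^ 1 * (1 / 2 : ℝ) ^ s) :=
    summable_pow_mul_geometric_of_norm_lt_one 1 (by norm_num)
  have h2 : Summable (fun s : ℕ => (1 / 2 : ℝ) ^ s) :=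
    summable_geometric_of_lt_one (by norm_num) (by norm_num)
  refine ((h1.mul_left (1 / 2)).add (h2.mul_left 4)).congr ?_
  intro s
  rw [pow_one, one_div, inv_pow, pow_succ]
  field_simp
  ring

/-- The approximants of the Green function. -/
def us (s : ℕ) (z : ℂ) : ℝ := Lam (Fc Gp s z) / 2 ^ s

lemma us_step (s : ℕ) (z : ℂ) : ‖us (s + 1) z - us s z‖ ≤ ((s : ℝ) + 8) / 2 ^ (s + 1) := by
  have h1 := Lam_step (two_lt_Gp s) (Fc Gp s z)
  have h2 := log_three_Gp s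
  have h3 : us (s + 1) z - us s z
      = (Lam (fc (Gp s) (Fc Gp s z)) - 2 * Lam (Fc Gp s z)) / 2 ^ (s + 1) := by
    unfold us
    show Lam (fc (Gp s) (Fc Gp s z)) / 2 ^ (s + 1) - _ = _
    rw [pow_succ]
    field_simp
  rw [h3, Real.norm_eq_abs, abs_div, abs_of_pos (by positivity : (0 : ℝ) < 2 ^ (s + 1))]
  gcongr
  exact h1.trans h2

lemma cont_us (s : ℕ) : Continuous (us s) := by
  unfold us
  exact (cont_Lam.comp (cont_Fc Gp s)).div_const _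

/-- The Green function. -/
def gr (z : ℂ) : ℝ := us 0 z + ∑' s, (us (s + 1) z - us s z)

lemma cont_gr : Continuous gr := by
  unfold gr
  exact (cont_us 0).add (continuous_tsum (fun s => (cont_us (s + 1)).sub (cont_us s)) summable_bd
    us_step)

lemma tendsto_us (z : ℂ) : Tendsto (fun s => us s z) atTop (𝓝 (gr z)) := by
  have h1 : Summable (fun s => us (s + 1) z - us s z) :=
    Summable.of_norm_bounded summable_bd (fun s => us_step s z)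
  have h2 := h1.hasSum.tendsto_sum_nat
  have h3 : ∀ n, us 0 z + ∑ s ∈ Finset.range n, (us (s + 1) z - us s z) = us n z := by
    intro n
    rw [Finset.sum_range_sub (fun s => us s z)]
    ring
  have h4 := (tendsto_const_nhds (x := us 0 z)).add h2
  exact h4.congr h3

lemma gr_zero {w : ℝ} (hw : w ∈ Kw) : gr (w : ℂ) = 0 := by
  have h : ∀ s, us s (w : ℂ) = 0 := by
    intro s
    unfold us Lam
    rw [Fc_ofReal, Complex.norm_real, Real.norm_eq_abs, max_eq_left (hw s), Real.log_one, zero_div]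
  exact tendsto_nhds_unique (tendsto_us _) (by simp [h])

/-! ### Points off the interval -/

/-- The sum of the distances to `-1` and `1`. -/
def Dd (ζ : ℂ) : ℝ := ‖ζ + 1‖ + ‖ζ - 1‖

lemma Dd_step {G : ℝ} (hG : 2 < G) (ζ : ℂ) : Dd ζ ^ 2 - 2 ≤ Dd (fc G ζ) := by
  have hpar : ‖ζ + 1‖ ^ 2 + ‖ζ - 1‖ ^ 2 = 2 * (‖ζ‖ ^ 2 + 1) := by
    have := parallelogram_law_with_norm ℝ ζ 1
    rw [norm_one] at this
    nlinarith [this]
  have hmul : ‖ζ + 1‖ * ‖ζ - 1‖ = ‖ζ ^ 2 - 1‖ := by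
    rw [← norm_mul]
    congr 1
    ring
  have h1 : Dd ζ ^ 2 - 2 = ‖(2 : ℂ) * ζ ^ 2‖ + ‖(2 : ℂ) * (ζ ^ 2 - 1)‖ := by
    unfold Dd
    rw [norm_mul, norm_mul, norm_pow, Complex.norm_ofNat]
    have : (‖ζ + 1‖ + ‖ζ - 1‖) ^ 2 = ‖ζ + 1‖ ^ 2 + ‖ζ - 1‖ ^ 2 + 2 * (‖ζ + 1‖ * ‖ζ - 1‖) := by ring
    rw [this, hpar, hmul]
    ring
  set c : ℝ := G / 2 with hc
  have hc1 : 1 < c := by rw [hc]; linarith
  have hcc : (G : ℂ) = 2 * (c : ℂ) := by rw [hc]; push_cast; ring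
  set u : ℂ := 2 * (ζ ^ 2 - 1) with hu
  have h2 : fc G ζ + 1 = 2 + c * u := by unfold fc; rw [hcc, hu]; ring
  have h3 : fc G ζ - 1 = c * u := by unfold fc; rw [hcc, hu]; ring
  have h4 : (2 : ℂ) * ζ ^ 2 = 2 + u := by rw [hu]; ring
  rw [h1, h4]
  unfold Dd
  rw [h2, h3]
  have hcn : ‖(c : ℂ)‖ = c := by rw [Complex.norm_real, Real.norm_of_nonneg (by linarith)]
  have h5 : c * ‖2 + u‖ ≤ 2 * (c - 1) + ‖2 + c * u‖ := by
    have : (c : ℂ) * (2 + u) = ((c : ℂ) - 1) * 2 + (2 + c * u) := by ring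
    calc c * ‖2 + u‖ = ‖(c : ℂ) * (2 + u)‖ := by rw [norm_mul, hcn]
      _ = ‖((c : ℂ) - 1) * 2 + (2 + c * u)‖ := by rw [this]
      _ ≤ ‖((c : ℂ) - 1) * 2‖ + ‖2 + c * u‖ := norm_add_le _ _
      _ = 2 * (c - 1) + ‖2 + c * u‖ := by
          rw [norm_mul, show ((c : ℂ) - 1) = ((c - 1 : ℝ) : ℂ) by push_cast; ring,
            Complex.norm_real, Real.norm_of_nonneg (by linarith), Complex.norm_ofNat]
          ring
  have h6 : ‖(c : ℂ) * u‖ = c * ‖u‖ := by rw [norm_mul, hcn]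
  have h7 : (2 : ℝ) ≤ ‖2 + c * u‖ + ‖(c : ℂ) * u‖ := by
    have h8 : ‖(2 : ℂ)‖ ≤ ‖2 + c * u‖ + ‖(c : ℂ) * u‖ := by
      calc ‖(2 : ℂ)‖ = ‖(2 + c * u) - c * u‖ := by congr 1; ring
        _ ≤ _ := norm_sub_le _ _
    rwa [Complex.norm_ofNat] at h8
  rw [h6] at h7 ⊢
  nlinarith

lemma Dd_growth (G : ℕ → ℝ) (hG : ∀ k, 2 < G k) {ζ : ℂ} (h : 2 < Dd ζ) (s : ℕ) :
    4 ^ s * (Dd ζ - 2) ≤ Dd (Fc G s ζ) - 2 := by
  induction s with
  | zero => simp [Fc]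
  | succ s ih =>
    have h1 : Dd (Fc G s ζ) ^ 2 - 2 ≤ Dd (Fc G (s + 1) ζ) := Dd_step (hG s) _
    have h2 : 0 < (4 : ℝ) ^ s * (Dd ζ - 2) := by
      have : 0 < Dd ζ - 2 := by linarith
      positivity
    rw [pow_succ]
    nlinarith

lemma Dd_off (G : ℕ → ℝ) (hG : ∀ k, 2 < G k) {ζ : ℂ} (h : 2 < Dd ζ) (s : ℕ) :
    2 < Dd (Fc G s ζ) := by
  have h1 := Dd_growth G hG h s
  have h2 : 0 < (4 : ℝ) ^ s * (Dd ζ - 2) := by
    have : 0 < Dd ζ - 2 := by linarith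
    positivity
  linarith

lemma Dd_le (ζ : ℂ) : Dd ζ ≤ 2 * ‖ζ‖ + 2 := by
  unfold Dd
  have h1 := norm_add_le ζ 1
  have h2 := norm_sub_le ζ 1
  rw [norm_one] at h1 h2
  linarith

lemma eventually_large (G : ℕ → ℝ) (hG : ∀ k, 2 < G k) {ζ : ℂ} (h : 2 < Dd ζ) :
    ∀ᶠ s in atTop, 2 ≤ ‖Fc G s ζ‖ := by
  have h0 : 0 < Dd ζ - 2 := by linarith
  have h1 : Tendsto (fun s : ℕ => (4 : ℝ) ^ s * (Dd ζ - 2)) atTop atTop :=
    (tendsto_pow_atTop_atTop_of_one_lt (by norm_num)).atTop_mul_const h0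
  filter_upwards [h1.eventually_ge_atTop 4] with s hs
  have h2 := Dd_growth G hG h s
  have h3 := Dd_le (Fc G s ζ)
  linarith

lemma off_of_im {ζ : ℂ} (h : ζ.im ≠ 0) : 2 < Dd ζ := by
  have h1 : |(ζ + 1).re| < ‖ζ + 1‖ := Complex.abs_re_lt_norm.mpr (by simpa using h)
  have h2 : |(ζ - 1).re| < ‖ζ - 1‖ := Complex.abs_re_lt_norm.mpr (by simpa using h)
  have h3 : (ζ + 1).re = ζ.re + 1 := by simp
  have h4 : (ζ - 1).re = ζ.re - 1 := by simp
  rw [h3] at h1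
  rw [h4] at h2
  have h5 := (abs_lt.mp h1).2
  have h6 := (abs_lt.mp h2).1
  unfold Dd
  linarith

lemma off_of_real {x : ℝ} (h : 1 < |x|) : 2 < Dd (x : ℂ) := by
  unfold Dd
  have h1 : ‖(x : ℂ) + 1‖ = |x + 1| := by
    rw [show ((x : ℂ) + 1) = ((x + 1 : ℝ) : ℂ) by push_cast; ring, Complex.norm_real,
      Real.norm_eq_abs]
  have h2 : ‖(x : ℂ) - 1‖ = |x - 1| := by
    rw [show ((x : ℂ) - 1) = ((x - 1 : ℝ) : ℂ) by push_cast; ring, Complex.norm_real,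
      Real.norm_eq_abs]
  rw [h1, h2]
  rcases lt_abs.mp h with h3 | h3
  · have := le_abs_self (x + 1)
    have := le_abs_self (x - 1)
    linarith
  · have := neg_le_abs (x + 1)
    have := neg_le_abs (x - 1)
    linarith

lemma dist_lower {ζ : ℂ} {y : ℝ} (hy : |y| ≤ 1) : (Dd ζ - 2) / 2 ≤ ‖ζ - (y : ℂ)‖ := by
  have hy' := abs_le.mp hy
  have h1 : ‖ζ + 1‖ ≤ ‖ζ - (y : ℂ)‖ + (1 + y) := by
    calc ‖ζ + 1‖ = ‖(ζ - (y : ℂ)) + ((1 + y : ℝ) : ℂ)‖ := by congr 1; push_cast; ring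
      _ ≤ ‖ζ - (y : ℂ)‖ + ‖((1 + y : ℝ) : ℂ)‖ := norm_add_le _ _
      _ = ‖ζ - (y : ℂ)‖ + (1 + y) := by
          rw [Complex.norm_real, Real.norm_of_nonneg (by linarith [hy'.1])]
  have h2 : ‖ζ - 1‖ ≤ ‖ζ - (y : ℂ)‖ + (1 - y) := by
    calc ‖ζ - 1‖ = ‖(ζ - (y : ℂ)) - ((1 - y : ℝ) : ℂ)‖ := by congr 1; push_cast; ring
      _ ≤ ‖ζ - (y : ℂ)‖ + ‖((1 - y : ℝ) : ℂ)‖ := norm_sub_le _ _
      _ = ‖ζ - (y : ℂ)‖ + (1 - y) := by
          rw [Complex.norm_real, Real.norm_of_nonneg (by linarith [hy'.2])]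
  unfold Dd
  linarith

lemma dist_upper {ζ : ℂ} {y : ℝ} (hy : |y| ≤ 1) : ‖ζ - (y : ℂ)‖ ≤ ‖ζ‖ + 1 := by
  refine (norm_sub_le _ _).trans ?_
  rw [Complex.norm_real, Real.norm_eq_abs]
  linarith

end

end Pool.Agent.Q73.NG
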