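import Pool.Agent.Q73.NG.RealPt

set_option autoImplicit false

/-!
The equilibrium measure of the Cantor set, its energy and its Green function.  The proof of `main2`
is that of `Pool.Agent.Helper973.KG.main` (starting file), which does not name the measure.
-/

namespace Pool.Agent.Q73.NG

open MeasureTheory Filter Topology Set
open Pool.Agent.Helper973.KG

noncomputable section

theorem main2 : ∃ μ : ℕ → ProbabilityMeasure ℝ, Sys μ ∧
    IsProbabilityMeasure ((μ 0 : Measure ℝ).map ph) ∧ ((μ 0 : Measure ℝ).map ph) bad = 0 ∧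
    (∀ᵐ w ∂(μ 0 : Measure ℝ), w ∈ Kw) ∧
    (∫⁻ x, ∫⁻ y, kz x y ∂((μ 0 : Measure ℝ).map ph) ∂((μ 0 : Measure ℝ).map ph)) < ⊤ ∧
    (∀ ν : Measure ℝ, IsProbabilityMeasure ν → ν bad = 0 →
      (∫⁻ x, ∫⁻ y, kz x y ∂((μ 0 : Measure ℝ).map ph) ∂((μ 0 : Measure ℝ).map ph))
        ≤ (∫⁻ x, ∫⁻ y, kz x y ∂ν ∂ν)) ∧
    (∀ m n, ∫ x, (pz m).eval x * (pz n).eval x ∂((μ 0 : Measure ℝ).map ph)
      = if m = n then 1 else 0) ∧
    (∀ n, ∫ x, x * (pz n).eval x * (pz (n + 1)).eval x ∂((μ 0 : Measure ℝ).map ph)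
      = 1 / 2 * √(RR Gp 0 (n + 1))) := by
  obtain ⟨μ, h1, h2, h2', h4⟩ := exists_meas Gp two_lt_Gp
  have h3 := h2'
  have hint := int_Pl Gp two_lt_Gp μ h2 h3
  have horth := orth Gp (μ 0 : Measure ℝ) (h1 0) (fun n hn => hint n 0 hn)
  have horthx := orth_x Gp (μ 0 : Measure ℝ) (h1 0) (fun n hn => hint n 0 hn)
  have hFk : ∀ j k, (μ k : Measure ℝ).map (Fk Gp k j) = (μ (k + j) : Measure ℝ) := by
    intro j
    induction j with
    | zero => intro k; exact Measure.map_id
    | succ j ih =>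
      intro k
      have e : Fk Gp k (j + 1) = Fk Gp (k + 1) j ∘ fq (Gp k) := rfl
      rw [e, ← Measure.map_map (cont_Fk Gp j (k + 1)).measurable (cont_fq (Gp k)).measurable, h2,
        ih (k + 1)]
      congr 2
      ring
  have hms : MeasurableSet {x : ℝ | |x| ≤ 1} :=
    measurableSet_le continuous_abs.measurable measurable_const
  have hsupp : ∀ᵐ w ∂(μ 0 : Measure ℝ), ∀ j, |Fk Gp 0 j w| ≤ 1 := by
    rw [ae_all_iff]
    intro j
    have := h1 (0 + j)
    rw [← hFk j 0, ae_map_iff (cont_Fk Gp j 0).measurable.aemeasurable hms] at this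
    exact this
  refine ⟨μ, ⟨h1, h2, h2'⟩, Measure.isProbabilityMeasure_map meas_ph.aemeasurable, ?_, hsupp,
    ?_, ?_, ?_, ?_⟩
  · have h5 : ∀ᵐ z ∂((μ 0 : Measure ℝ).map ph), z ∉ bad := by
      rw [ae_map_iff meas_ph.aemeasurable meas_bad.compl]
      filter_upwards [hsupp] with w hw
      rintro ⟨s, hs⟩
      rcases Nat.eq_zero_or_pos s with rfl | hs0
      · rw [FF_zero] at hs
        have hw0 : |w| ≤ 1 := hw 0
        have hw1 := abs_le.1 hw0
        unfold ph at hs
        have : |(1 + w) / 2| ≤ 1 := by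
          rw [abs_le]; constructor <;> linarith [hw1.1, hw1.2]
        linarith
      · obtain ⟨t, rfl⟩ : ∃ t, s = t + 1 := ⟨s - 1, by omega⟩
        rw [FF_ph] at hs
        linarith [hw (t + 1)]
    rw [ae_iff] at h5
    simpa using h5
  · rw [En_kz]
    refine lt_of_le_of_lt (h4 (ENNReal.ofReal 9) ?_) ENNReal.ofReal_lt_top
    intro n
    apply ENNReal.ofReal_le_ofReal
    have := Vn_Gp_le n 0
    simpa using this
  · intro ν hν hb
    rw [En_kz]
    exact h4 _ (fun n => kz_lower ν hb n)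
  · intro m n
    have hcont : Continuous (fun x => (pz m).eval x * (pz n).eval x) :=
      (pz m).continuous.mul (pz n).continuous
    rw [integral_map meas_ph.aemeasurable hcont.measurable.aestronglyMeasurable]
    simp_rw [pz_eval]
    have e : ∀ w : ℝ, 1 / √(hh Gp m) * (Pl Gp 0 m).eval w * (1 / √(hh Gp n) * (Pl Gp 0 n).eval w)
        = (1 / √(hh Gp m) * (1 / √(hh Gp n))) * ((Pl Gp 0 m).eval w * (Pl Gp 0 n).eval w) := by
      intro w; ring
    simp_rw [e]
    rw [integral_const_mul]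
    rcases lt_trichotomy m n with h | h | h
    · rw [(horth m).1 n h, if_neg h.ne, mul_zero]
    · subst h
      rw [(horth m).2, if_pos rfl]
      have hp := hh_pos Gp two_lt_Gp m
      have hs := Real.sqrt_pos.2 hp
      have := Real.mul_self_sqrt hp.le
      field_simp
      rw [sq]
      exact this.symm
    · have e2 : ∀ w : ℝ, (Pl Gp 0 m).eval w * (Pl Gp 0 n).eval w
          = (Pl Gp 0 n).eval w * (Pl Gp 0 m).eval w := fun w => mul_comm _ _
      simp_rw [e2]
      rw [(horth n).1 m h, if_neg h.ne', mul_zero]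
  · intro n
    have hcont : Continuous (fun x => x * (pz n).eval x * (pz (n + 1)).eval x) :=
      (continuous_id.mul (pz n).continuous).mul (pz (n + 1)).continuous
    rw [integral_map meas_ph.aemeasurable hcont.measurable.aestronglyMeasurable]
    simp_rw [pz_eval]
    have e : ∀ w : ℝ, ph w * (1 / √(hh Gp n) * (Pl Gp 0 n).eval w)
          * (1 / √(hh Gp (n + 1)) * (Pl Gp 0 (n + 1)).eval w)
        = (1 / 2 * (1 / √(hh Gp n) * (1 / √(hh Gp (n + 1)))))
            * ((Pl Gp 0 n).eval w * (Pl Gp 0 (n + 1)).eval w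
              + w * ((Pl Gp 0 n).eval w * (Pl Gp 0 (n + 1)).eval w)) := by
      intro w; unfold ph; ring
    simp_rw [e]
    have i1 : Integrable (fun w => (Pl Gp 0 n).eval w * (Pl Gp 0 (n + 1)).eval w)
        (μ 0 : Measure ℝ) := by
      have := int_poly (h1 0) (Pl Gp 0 n * Pl Gp 0 (n + 1))
      simpa using this
    have i2 : Integrable (fun w => w * ((Pl Gp 0 n).eval w * (Pl Gp 0 (n + 1)).eval w))
        (μ 0 : Measure ℝ) := by
      have := int_poly (h1 0) (Polynomial.X * (Pl Gp 0 n * Pl Gp 0 (n + 1)))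
      simpa using this
    rw [integral_const_mul, integral_add i1 i2, (horth n).1 (n + 1) (by omega), horthx n, zero_add,
      hh_succ]
    have hp := hh_pos Gp two_lt_Gp n
    have hR := RR_pos Gp two_lt_Gp 0 n
    have hs := Real.sqrt_pos.2 hp
    have hsR := Real.sqrt_pos.2 hR
    have m1 := Real.mul_self_sqrt hp.le
    have m2 := Real.mul_self_sqrt hR.le
    rw [Real.sqrt_mul hp.le]
    have e3 : 1 / 2 * (1 / √(hh Gp n) * (1 / (√(hh Gp n) * √(RR Gp 0 (n + 1)))))
        * (hh Gp n * RR Gp 0 (n + 1))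
        = 1 / 2 * ((hh Gp n) / (√(hh Gp n) * √(hh Gp n))
          * (RR Gp 0 (n + 1) / √(RR Gp 0 (n + 1)))) := by
      field_simp
    rw [e3, m1, div_self hp.ne', one_mul]
    congr 1
    rw [div_eq_iff hsR.ne']
    exact m2.symm


lemma int_ker {μ : ℕ → ProbabilityMeasure ℝ} (hμ : Sys μ) {x : ℝ} (hx : |x| ≤ 1) :
    ∫⁻ y, Helper973.KG.ker x y ∂(μ 0 : Measure ℝ) = ENNReal.ofReal (Real.log 2 + c0 - gr x) := by
  obtain ⟨hne, hint, hU⟩ := Up_real hμ hx
  have hconv : (fun y : ℝ => Real.log (2 / |x - y|)) =ᵐ[(μ 0 : Measure ℝ)]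
      fun y => Real.log 2 - Real.log ‖(x : ℂ) - (y : ℂ)‖ := by
    filter_upwards [hne] with y hy
    have h3 : 0 < |x - y| := abs_pos.mpr (sub_ne_zero.mpr hy)
    rw [show (x : ℂ) - (y : ℂ) = ((x - y : ℝ) : ℂ) by push_cast; ring, Complex.norm_real,
      Real.norm_eq_abs, Real.log_div (by norm_num) h3.ne']
  have hnn : 0 ≤ᵐ[(μ 0 : Measure ℝ)] fun y : ℝ => Real.log (2 / |x - y|) := by
    filter_upwards [hμ.supp 0, hne] with y hy hxy
    apply Real.log_nonneg
    have h1 := abs_le.mp hx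
    have h2 := abs_le.mp hy
    have h3 : 0 < |x - y| := abs_pos.mpr (sub_ne_zero.mpr hxy)
    rw [one_le_div h3, abs_le]
    constructor <;> linarith
  have hint2 : Integrable (fun y : ℝ => Real.log (2 / |x - y|)) (μ 0 : Measure ℝ) :=
    ((integrable_const _).sub hint).congr hconv.symm
  have hker : ∫⁻ y, Helper973.KG.ker x y ∂(μ 0 : Measure ℝ)
      = ∫⁻ y, ENNReal.ofReal (Real.log (2 / |x - y|)) ∂(μ 0 : Measure ℝ) := by
    apply lintegral_congr_ae
    filter_upwards [hne] with y hy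
    unfold Helper973.KG.ker
    rw [if_neg hy]
  rw [hker, ← ofReal_integral_eq_lintegral_ofReal hint2 hnn, integral_congr_ae hconv,
    integral_sub (integrable_const _) hint, integral_const, probReal_univ, one_smul]
  unfold Up at hU
  rw [hU]
  congr 1
  ring

lemma energy_eq {μ : ℕ → ProbabilityMeasure ℝ} (hμ : Sys μ)
    (hK : ∀ᵐ w ∂(μ 0 : Measure ℝ), w ∈ Kw) :
    ∫⁻ x, ∫⁻ y, kz x y ∂((μ 0 : Measure ℝ).map ph) ∂((μ 0 : Measure ℝ).map ph)
      = ENNReal.ofReal (Real.log 2 + c0) := by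
  rw [En_kz]
  unfold En
  rw [lintegral_prod (fun z : ℝ × ℝ => Helper973.KG.ker z.1 z.2) Helper973.KG.measurable_ker.aemeasurable]
  have h : ∀ᵐ x ∂(μ 0 : Measure ℝ), ∫⁻ y, Helper973.KG.ker x y ∂(μ 0 : Measure ℝ)
      = ENNReal.ofReal (Real.log 2 + c0) := by
    filter_upwards [hK, hμ.supp 0] with x hx hx1
    rw [int_ker hμ hx1, gr_zero hx, sub_zero]
  rw [lintegral_congr_ae h, lintegral_const, measure_univ, mul_one]

lemma pot_ph {μ : ℕ → ProbabilityMeasure ℝ} (hμ : Sys μ) (z : ℂ) :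
    ∫ t, Real.log ‖z - (t : ℂ)‖ ∂((μ 0 : Measure ℝ).map ph) = gr (2 * z - 1) - c0 - Real.log 2 := by
  obtain ⟨hne, hint, hU⟩ := Up_all hμ (2 * z - 1)
  rw [integral_map meas_ph.aemeasurable (meas_log z).aestronglyMeasurable]
  have hconv : (fun w : ℝ => Real.log ‖z - ((ph w : ℝ) : ℂ)‖) =ᵐ[(μ 0 : Measure ℝ)]
      fun w => Real.log ‖(2 * z - 1) - (w : ℂ)‖ - Real.log 2 := by
    filter_upwards [hne] with w hw
    have h1 : z - ((ph w : ℝ) : ℂ) = ((2 * z - 1) - (w : ℂ)) / 2 := by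
      unfold ph
      push_cast
      ring
    rw [h1, norm_div, Complex.norm_ofNat, Real.log_div _ (by norm_num)]
    rw [norm_ne_zero_iff]
    exact sub_ne_zero.mpr hw
  rw [integral_congr_ae hconv, integral_sub hint (integrable_const _), integral_const,
    probReal_univ, one_smul]
  unfold Up at hU
  rw [hU]

lemma ps_coe (x : ℝ) : (2 * (x : ℂ) - 1) = ((ps x : ℝ) : ℂ) := by
  unfold ps
  push_cast
  ring

end

end Pool.Agent.Q73.NG
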