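import Pool.Agent.Helper973.KGj

set_option autoImplicit false

/-!
The Cantor set of the starting refutation of MP_28611e_an has Lebesgue measure zero.
-/

namespace Pool.Agent.Q73.NG

open MeasureTheory Filter Topology Set
open Pool.Agent.Helper973.KG

noncomputable section

/-- The inverse branch of the quadratic polynomial in the angle. -/
def hb (G φ : ℝ) : ℝ := Real.arcsin (√(2 / G) * Real.sin (φ / 2))

lemma sqrt_two_div_lt {G : ℝ} (hG : 2 < G) : √(2 / G) < 1 := by
  rw [Real.sqrt_lt' one_pos, one_pow, div_lt_one (by linarith)]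
  exact hG

lemma hb_deriv {G : ℝ} (hG : 2 < G) (φ : ℝ) :
    HasDerivAt (hb G) (1 / √(1 - (√(2 / G) * Real.sin (φ / 2)) ^ 2) *
      (√(2 / G) * (Real.cos (φ / 2) * (1 / 2)))) φ := by
  have hc := sqrt_two_div_lt hG
  have hc0 : 0 ≤ √(2 / G) := Real.sqrt_nonneg _
  have hs := Real.sin_le_one (φ / 2)
  have hs' := Real.neg_one_le_sin (φ / 2)
  have h1 : √(2 / G) * Real.sin (φ / 2) < 1 := by nlinarith
  have h2 : -1 < √(2 / G) * Real.sin (φ / 2) := by nlinarith
  have hin : HasDerivAt (fun φ : ℝ => √(2 / G) * Real.sin (φ / 2))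
      (√(2 / G) * (Real.cos (φ / 2) * (1 / 2))) φ := by
    have h3 : HasDerivAt (fun φ : ℝ => φ / 2) (1 / 2) φ := (hasDerivAt_id φ).div_const 2
    exact (h3.sin).const_mul _
  exact (Real.hasDerivAt_arcsin h2.ne' h1.ne).comp φ hin

lemma hb_lip {G : ℝ} (hG : 2 < G) : LipschitzWith (Real.toNNReal (√(2 / G) / 2)) (hb G) := by
  apply lipschitzWith_of_nnnorm_deriv_le
  · intro φ
    exact (hb_deriv hG φ).differentiableAt
  · intro φ
    rw [(hb_deriv hG φ).deriv, ← NNReal.coe_le_coe, coe_nnnorm, Real.coe_toNNReal _ (by positivity)]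
    have hc := sqrt_two_div_lt hG
    have hc0 : 0 ≤ √(2 / G) := Real.sqrt_nonneg _
    have hsc := Real.sin_sq_add_cos_sq (φ / 2)
    set c := √(2 / G)
    set s := Real.sin (φ / 2)
    set k := Real.cos (φ / 2)
    have h1 : k ^ 2 ≤ 1 - (c * s) ^ 2 := by
      have : (c * s) ^ 2 ≤ s ^ 2 := by
        rw [mul_pow]
        have : c ^ 2 ≤ 1 := by nlinarith
        nlinarith [sq_nonneg s]
      linarith
    have h2 : |k| ≤ √(1 - (c * s) ^ 2) := by
      rw [← Real.sqrt_sq_eq_abs]
      exact Real.sqrt_le_sqrt h1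
    have hpos : 0 < √(1 - (c * s) ^ 2) := by
      apply Real.sqrt_pos.mpr
      have h3 : s ^ 2 ≤ 1 := by nlinarith [sq_nonneg k]
      have h4 : (c * s) ^ 2 < 1 := by
        rw [mul_pow]
        have : c ^ 2 < 1 := by nlinarith
        nlinarith [sq_nonneg s, sq_nonneg c]
      linarith
    rw [Real.norm_eq_abs, abs_mul, abs_mul, abs_mul, abs_of_nonneg hc0,
      abs_of_pos (by positivity : 0 < 1 / √(1 - (c * s) ^ 2)),
      abs_of_pos (by norm_num : (0:ℝ) < 1 / 2), one_div, inv_mul_le_iff₀ hpos]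
    nlinarith

/-- The angles of the points of the Cantor set at stage `k`. -/
def Th (G : ℕ → ℝ) (k : ℕ) : Set ℝ := {θ | θ ∈ Icc 0 Real.pi ∧ ∀ j, |Fk G k j (Real.cos θ)| ≤ 1}

lemma Th_subset (G : ℕ → ℝ) (hG : ∀ k, 2 < G k) (k : ℕ) :
    Th G k ⊆ hb (G k) '' (Th G (k + 1)) ∪
      (fun t => Real.pi - t) '' (hb (G k) '' (Th G (k + 1))) := by
  rintro θ ⟨⟨h0, hpi⟩, hθ⟩
  have hg := hG k
  have h1 : |fq (G k) (Real.cos θ)| ≤ 1 := hθ 1
  have h1' := abs_le.mp h1
  set φ := Real.arccos (fq (G k) (Real.cos θ)) with hφ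
  have hcos : Real.cos φ = fq (G k) (Real.cos θ) := Real.cos_arccos h1'.1 h1'.2
  have hφ0 : 0 ≤ φ := Real.arccos_nonneg _
  have hφ1 : φ ≤ Real.pi := Real.arccos_le_pi _
  have hφT : φ ∈ Th G (k + 1) := by
    refine ⟨⟨hφ0, hφ1⟩, fun j => ?_⟩
    rw [hcos]
    exact hθ (j + 1)
  have hsin0 : 0 ≤ Real.sin θ := Real.sin_nonneg_of_nonneg_of_le_pi h0 hpi
  have hkey : √(2 / G k) * Real.sin (φ / 2) = Real.sin θ := by
    rw [Real.sin_half_eq_sqrt hφ0 (by linarith [Real.pi_pos]), ← Real.sqrt_mul (by positivity),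
      hcos]
    have h2 : 2 / G k * ((1 - fq (G k) (Real.cos θ)) / 2) = Real.sin θ ^ 2 := by
      unfold fq
      rw [Real.sin_sq]
      have : G k ≠ 0 := by linarith
      field_simp
      ring
    rw [h2, Real.sqrt_sq hsin0]
  have hval : hb (G k) φ = Real.arcsin (Real.sin θ) := by
    unfold hb
    rw [hkey]
  rcases le_total θ (Real.pi / 2) with h | h
  · left
    refine ⟨φ, hφT, ?_⟩
    rw [hval, Real.arcsin_sin (by linarith [Real.pi_pos]) h]
  · right
    refine ⟨hb (G k) φ, ⟨φ, hφT, rfl⟩, ?_⟩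
    show Real.pi - hb (G k) φ = θ
    rw [hval, ← Real.sin_pi_sub, Real.arcsin_sin (by linarith) (by linarith)]
    ring

lemma volume_lip {f : ℝ → ℝ} {C : NNReal} (hf : LipschitzWith C f) (S : Set ℝ) :
    volume (f '' S) ≤ C * volume S := by
  have := hf.hausdorffMeasure_image_le (d := 1) zero_le_one S
  rw [hausdorffMeasure_real] at this
  simpa using this

lemma volume_Th (G : ℕ → ℝ) (hG : ∀ k, 2 < G k) (k : ℕ) :
    volume (Th G k) ≤ ENNReal.ofReal √(2 / G k) * volume (Th G (k + 1)) := by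
  have h1 : volume (hb (G k) '' (Th G (k + 1))) ≤
      ENNReal.ofReal (√(2 / G k) / 2) * volume (Th G (k + 1)) := by
    have := volume_lip (hb_lip (hG k)) (Th G (k + 1))
    exact this
  have h2 : volume ((fun t => Real.pi - t) '' (hb (G k) '' (Th G (k + 1)))) ≤
      volume (hb (G k) '' (Th G (k + 1))) := by
    have hl : LipschitzWith 1 (fun t : ℝ => Real.pi - t) := by
      apply LipschitzWith.of_dist_le_mul
      intro x y
      rw [Real.dist_eq, Real.dist_eq]
      simp only [NNReal.coe_one, one_mul]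
      rw [show Real.pi - x - (Real.pi - y) = -(x - y) by ring, abs_neg]
    have := volume_lip hl (hb (G k) '' (Th G (k + 1)))
    simpa using this
  calc volume (Th G k) ≤ volume (hb (G k) '' (Th G (k + 1)) ∪
      (fun t => Real.pi - t) '' (hb (G k) '' (Th G (k + 1)))) := measure_mono (Th_subset G hG k)
    _ ≤ volume (hb (G k) '' (Th G (k + 1))) +
        volume ((fun t => Real.pi - t) '' (hb (G k) '' (Th G (k + 1)))) := measure_union_le _ _
    _ ≤ ENNReal.ofReal (√(2 / G k) / 2) * volume (Th G (k + 1)) +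
        ENNReal.ofReal (√(2 / G k) / 2) * volume (Th G (k + 1)) := add_le_add h1 (h2.trans h1)
    _ = ENNReal.ofReal √(2 / G k) * volume (Th G (k + 1)) := by
        rw [← add_mul, ← ENNReal.ofReal_add (by positivity) (by positivity), add_halves]

lemma volume_Th_le (G : ℕ → ℝ) (hG : ∀ k, 2 < G k) (n : ℕ) :
    volume (Th G 0) ≤ ENNReal.ofReal (∏ j ∈ Finset.range n, √(2 / G j)) * volume (Th G n) := by
  induction n with
  | zero => simp
  | succ n ih =>
    refine ih.trans ?_
    rw [Finset.prod_range_succ, ENNReal.ofReal_mul (by positivity), mul_assoc]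
    gcongr
    exact volume_Th G hG n

lemma volume_Th_pi (G : ℕ → ℝ) (k : ℕ) : volume (Th G k) ≤ ENNReal.ofReal Real.pi := by
  have : volume (Th G k) ≤ volume (Icc 0 Real.pi) := measure_mono fun θ hθ => hθ.1
  rwa [Real.volume_Icc, sub_zero] at this

lemma prod_mono (G : ℕ → ℝ) (hG : ∀ k, 2 < G k) {m n : ℕ} (h : m ≤ n) :
    ∏ j ∈ Finset.range n, √(2 / G j) ≤ ∏ j ∈ Finset.range m, √(2 / G j) := by
  induction n, h using Nat.le_induction with
  | base => exact le_rfl
  | succ n _ ih =>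
    rw [Finset.prod_range_succ]
    have h1 := (sqrt_two_div_lt (hG n)).le
    have h2 : 0 ≤ ∏ j ∈ Finset.range n, √(2 / G j) := by positivity
    nlinarith

lemma prod_Gp (m : ℕ) : ∏ j ∈ Finset.range (st m), √(2 / Gp j) ≤ (1 / 2) ^ m := by
  induction m with
  | zero =>
    rw [pow_zero]
    have := prod_mono Gp two_lt_Gp (Nat.zero_le (st 0))
    simpa using this
  | succ m ih =>
    rw [st_succ, Finset.prod_range_succ, pow_succ]
    have h1 : ∏ j ∈ Finset.range (st m + 1 + Lb m), √(2 / Gp j) ≤ (1 / 2) ^ m :=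
      (prod_mono Gp two_lt_Gp (by omega)).trans ih
    have h2 : √(2 / Gp (st m + 1 + Lb m)) ≤ 1 / 2 := by
      rw [Gp_S, Real.sqrt_le_left (by norm_num)]
      rw [div_le_iff₀ (by linarith [Gb_ge m])]
      linarith [Gb_ge m]
    exact mul_le_mul h1 h2 (by positivity) (by positivity)

lemma volume_Th_zero : volume (Th Gp 0) = 0 := by
  have h : ∀ m : ℕ, volume (Th Gp 0) ≤ ENNReal.ofReal ((1 / 2) ^ m * Real.pi) := by
    intro m
    refine (volume_Th_le Gp two_lt_Gp (st m)).trans ?_
    rw [ENNReal.ofReal_mul (by positivity)]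
    gcongr
    · exact prod_Gp m
    · exact volume_Th_pi Gp _
  have ht : Tendsto (fun m : ℕ => ENNReal.ofReal ((1 / 2) ^ m * Real.pi)) atTop (𝓝 0) := by
    rw [← ENNReal.ofReal_zero]
    apply ENNReal.tendsto_ofReal
    have := (tendsto_pow_atTop_nhds_zero_of_lt_one (r := (1 / 2 : ℝ)) (by norm_num)
      (by norm_num)).mul_const Real.pi
    simpa using this
  exact le_antisymm (ge_of_tendsto' ht h) bot_le

/-- The Cantor set in the coordinate `w`. -/
def Kw : Set ℝ := {w | ∀ j, |Fk Gp 0 j w| ≤ 1}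

lemma volume_Kw : volume Kw = 0 := by
  have hsub : Kw ⊆ Real.cos '' (Th Gp 0) := by
    intro w hw
    have h0 : |w| ≤ 1 := hw 0
    have h1 := abs_le.mp h0
    refine ⟨Real.arccos w, ⟨⟨Real.arccos_nonneg _, Real.arccos_le_pi _⟩, fun j => ?_⟩,
      Real.cos_arccos h1.1 h1.2⟩
    rw [Real.cos_arccos h1.1 h1.2]
    exact hw j
  have hl : LipschitzWith 1 Real.cos := by
    apply lipschitzWith_of_nnnorm_deriv_le Real.differentiable_cos
    intro x
    rw [Real.deriv_cos, ← NNReal.coe_le_coe, coe_nnnorm, norm_neg, Real.norm_eq_abs, NNReal.coe_one]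
    exact Real.abs_sin_le_one x
  have := (measure_mono hsub).trans (volume_lip hl (Th Gp 0))
  rw [volume_Th_zero, mul_zero] at this
  exact le_antisymm this bot_le

lemma compl_bad : badᶜ = ps ⁻¹' Kw := by
  have hG0 := two_lt_Gp 0
  ext x
  simp only [mem_compl_iff, mem_preimage, bad, Kw, mem_setOf_eq, not_exists, not_lt]
  constructor
  · intro h j
    rcases Nat.eq_zero_or_pos j with rfl | hj
    · have h1 := h 1
      rw [FF_succ, if_pos rfl, FF_zero] at h1
      have h2 := (abs_le.mp h1).2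
      have hg : 0 < gam 0 := (gam_pos 0).1
      have h3 : 2 * x * (x - 1) / gam 0 ≤ 0 := by linarith
      have h4 : x * (x - 1) ≤ 0 := by
        have : 2 * x * (x - 1) / gam 0 * gam 0 ≤ 0 := by nlinarith
        rw [div_mul_cancel₀ _ hg.ne'] at this
        linarith
      show |ps x| ≤ 1
      unfold ps
      rw [abs_le]
      constructor <;> nlinarith
    · obtain ⟨t, rfl⟩ : ∃ t, j = t + 1 := ⟨j - 1, by omega⟩
      have := h (t + 1)
      rw [← ph_ps x, FF_ph] at this
      exact this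
  · intro h s
    rcases Nat.eq_zero_or_pos s with rfl | hs
    · have h0 : |ps x| ≤ 1 := h 0
      have h1 := abs_le.mp h0
      rw [FF_zero]
      unfold ps at h1
      rw [abs_le]
      constructor <;> linarith [h1.1, h1.2]
    · obtain ⟨t, rfl⟩ : ∃ t, s = t + 1 := ⟨s - 1, by omega⟩
      rw [← ph_ps x, FF_ph]
      exact h (t + 1)

lemma isClosed_Kw : IsClosed Kw := by
  have : Kw = ⋂ j, {w | |Fk Gp 0 j w| ≤ 1} := by
    ext w; simp [Kw]
  rw [this]
  exact isClosed_iInter fun j => isClosed_le ((cont_Fk Gp j 0).abs) continuous_const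

lemma volume_compl_bad : volume badᶜ = 0 := by
  rw [compl_bad]
  have : ps ⁻¹' Kw ⊆ ph '' Kw := by
    intro x hx
    exact ⟨ps x, hx, ph_ps x⟩
  have hl : LipschitzWith 1 ph := by
    apply LipschitzWith.of_dist_le_mul
    intro x y
    rw [Real.dist_eq, Real.dist_eq]
    unfold ph
    simp only [NNReal.coe_one, one_mul]
    rw [show (1 + x) / 2 - (1 + y) / 2 = (x - y) / 2 by ring, abs_div, abs_two]
    have := abs_nonneg (x - y)
    linarith
  have := (measure_mono this).trans (volume_lip hl Kw)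
  rw [volume_Kw, mul_zero] at this
  exact le_antisymm this bot_le

lemma compl_bad_subset : badᶜ ⊆ Icc 0 1 := by
  rw [compl_bad]
  intro x hx
  have h0 : |ps x| ≤ 1 := hx 0
  have h1 := abs_le.mp h0
  unfold ps at h1
  constructor <;> linarith [h1.1, h1.2]

lemma isCompact_compl_bad : IsCompact badᶜ := by
  apply isCompact_Icc.of_isClosed_subset _ compl_bad_subset
  rw [compl_bad]
  exact isClosed_Kw.preimage (by unfold ps; fun_prop)

end

end Pool.Agent.Q73.NG
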