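import Pool.Agent.Q73.NG.Green

set_option autoImplicit false

/-!
The potential of the equilibrium measure.
-/

namespace Pool.Agent.Q73.NG

open MeasureTheory Filter Topology Set
open Pool.Agent.Helper973.KG

noncomputable section

/-- The logarithmic potential (with positive sign). -/
def Up (μ : Measure ℝ) (ζ : ℂ) : ℝ := ∫ y, Real.log ‖ζ - (y : ℂ)‖ ∂μ

lemma meas_log (ζ : ℂ) : Measurable (fun y : ℝ => Real.log ‖ζ - (y : ℂ)‖) := by
  fun_prop

lemma log_bounds {ζ : ℂ} (h : 2 < Dd ζ) {y : ℝ} (hy : |y| ≤ 1) :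
    Real.log ((Dd ζ - 2) / 2) ≤ Real.log ‖ζ - (y : ℂ)‖ ∧
      Real.log ‖ζ - (y : ℂ)‖ ≤ Real.log (‖ζ‖ + 1) := by
  have h1 := dist_lower (ζ := ζ) hy
  have h2 := dist_upper (ζ := ζ) hy
  have h3 : 0 < (Dd ζ - 2) / 2 := by linarith
  exact ⟨Real.log_le_log h3 h1, Real.log_le_log (lt_of_lt_of_le h3 h1) h2⟩

lemma integrable_log {μ : Measure ℝ} [IsFiniteMeasure μ] (hμ : ∀ᵐ y ∂μ, |y| ≤ 1) {ζ : ℂ}
    (h : 2 < Dd ζ) : Integrable (fun y : ℝ => Real.log ‖ζ - (y : ℂ)‖) μ := by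
  refine Integrable.of_bound (meas_log ζ).aestronglyMeasurable
    (|Real.log ((Dd ζ - 2) / 2)| + |Real.log (‖ζ‖ + 1)|) ?_
  filter_upwards [hμ] with y hy
  obtain ⟨h1, h2⟩ := log_bounds h hy
  rw [Real.norm_eq_abs, abs_le]
  have a1 := neg_abs_le (Real.log ((Dd ζ - 2) / 2))
  have a2 := le_abs_self (Real.log (‖ζ‖ + 1))
  have a3 := abs_nonneg (Real.log ((Dd ζ - 2) / 2))
  have a4 := abs_nonneg (Real.log (‖ζ‖ + 1))
  constructor <;> linarith

/-- One step of the recursion. -/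
lemma Up_step {μ ν : Measure ℝ} [IsProbabilityMeasure μ] {G : ℝ} (hG : 2 < G)
    (hμ : ∀ᵐ y ∂μ, |y| ≤ 1) (hmap : μ.map (fq G) = ν) (hneg : μ.map (fun x => -x) = μ) {ζ : ℂ}
    (h : 2 < Dd ζ) : Up μ ζ = Up ν (fc G ζ) / 2 - Real.log G / 2 := by
  have hG0 : 0 < G := by linarith
  have hsym : ∫ y, Real.log ‖ζ - (y : ℂ)‖ ∂μ = ∫ y, Real.log ‖ζ + (y : ℂ)‖ ∂μ := by
    conv_lhs => rw [← hneg]
    rw [integral_map measurable_neg.aemeasurable (meas_log ζ).aestronglyMeasurable]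
    apply integral_congr_ae
    filter_upwards with y
    simp
  have hn' : 2 < Dd (-ζ) := by
    unfold Dd at h ⊢
    rw [show -ζ + 1 = -(ζ - 1) by ring, show -ζ - 1 = -(ζ + 1) by ring, norm_neg, norm_neg]
    linarith
  have hint1 := integrable_log hμ h
  have hint2 : Integrable (fun y : ℝ => Real.log ‖ζ + (y : ℂ)‖) μ := by
    refine (integrable_log hμ hn').congr ?_
    filter_upwards with y
    rw [show -ζ - (y : ℂ) = -(ζ + y) by ring, norm_neg]
  have hsum : (∫ y, Real.log ‖ζ - (y : ℂ)‖ ∂μ) + ∫ y, Real.log ‖ζ + (y : ℂ)‖ ∂μ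
      = ∫ y, (Real.log ‖fc G ζ - ((fq G y : ℝ) : ℂ)‖ - Real.log G) ∂μ := by
    rw [← integral_add hint1 hint2]
    apply integral_congr_ae
    filter_upwards [hμ] with y hy
    have h1 : 0 < ‖ζ - (y : ℂ)‖ := lt_of_lt_of_le (by linarith) (dist_lower (ζ := ζ) hy)
    have h2 : 0 < ‖ζ + (y : ℂ)‖ := by
      have := lt_of_lt_of_le (by linarith : 0 < (Dd (-ζ) - 2) / 2) (dist_lower (ζ := -ζ) hy)
      rw [show -ζ - (y : ℂ) = -(ζ + y) by ring, norm_neg] at this
      exact this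
    have h3 : fc G ζ - ((fq G y : ℝ) : ℂ) = (G : ℂ) * ((ζ - y) * (ζ + y)) := by
      unfold fc fq
      push_cast
      ring
    have h5 : ‖(G : ℂ) * ((ζ - y) * (ζ + y))‖ = G * (‖ζ - (y : ℂ)‖ * ‖ζ + (y : ℂ)‖) := by
      rw [norm_mul, norm_mul, Complex.norm_real, Real.norm_of_nonneg hG0.le]
    rw [h3, h5, Real.log_mul hG0.ne' (by positivity), Real.log_mul h1.ne' h2.ne']
    ring
  have hoff : 2 < Dd (fc G ζ) := by
    have := Dd_step hG ζ
    nlinarith
  have hmap2 : ∫ y, Real.log ‖fc G ζ - ((fq G y : ℝ) : ℂ)‖ ∂μ = Up ν (fc G ζ) := by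
    unfold Up
    rw [← hmap, integral_map (cont_fq G).measurable.aemeasurable
      (meas_log (fc G ζ)).aestronglyMeasurable]
  have hint3 : Integrable (fun y : ℝ => Real.log ‖fc G ζ - ((fq G y : ℝ) : ℂ)‖) μ := by
    have h4 : Integrable (fun y : ℝ => Real.log ‖ζ - (y : ℂ)‖ + Real.log ‖ζ + (y : ℂ)‖ + Real.log G) μ :=
      (hint1.add hint2).add (integrable_const _)
    refine h4.congr ?_
    filter_upwards [hμ] with y hy
    have h1 : 0 < ‖ζ - (y : ℂ)‖ := lt_of_lt_of_le (by linarith) (dist_lower (ζ := ζ) hy)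
    have h2 : 0 < ‖ζ + (y : ℂ)‖ := by
      have := lt_of_lt_of_le (by linarith : 0 < (Dd (-ζ) - 2) / 2) (dist_lower (ζ := -ζ) hy)
      rw [show -ζ - (y : ℂ) = -(ζ + y) by ring, norm_neg] at this
      exact this
    have h3 : fc G ζ - ((fq G y : ℝ) : ℂ) = (G : ℂ) * ((ζ - y) * (ζ + y)) := by
      unfold fc fq
      push_cast
      ring
    rw [h3, norm_mul, Complex.norm_real, Real.norm_of_nonneg hG0.le, norm_mul,
      Real.log_mul hG0.ne' (by positivity), Real.log_mul h1.ne' h2.ne']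
    ring
  rw [integral_sub hint3 (integrable_const _), hmap2, ← hsym] at hsum
  simp only [integral_const, probReal_univ, smul_eq_mul, one_mul] at hsum
  unfold Up at hsum ⊢
  linarith

lemma Up_large {μ : Measure ℝ} [IsProbabilityMeasure μ] (hμ : ∀ᵐ y ∂μ, |y| ≤ 1) {ζ : ℂ}
    (h : 2 < Dd ζ) (h2 : 2 ≤ ‖ζ‖) : |Up μ ζ - Lam ζ| ≤ Real.log 2 := by
  have hL : Lam ζ = Real.log ‖ζ‖ := by
    unfold Lam
    rw [max_eq_right (by linarith)]
  have hζ : 0 < ‖ζ‖ := by linarith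
  have hlow : Lam ζ - Real.log 2 ≤ Up μ ζ := by
    have h3 : ∫ y, (Lam ζ - Real.log 2) ∂μ ≤ ∫ y, Real.log ‖ζ - (y : ℂ)‖ ∂μ := by
      apply integral_mono_ae (integrable_const _) (integrable_log hμ h)
      filter_upwards [hμ] with y hy
      rw [hL, ← Real.log_div hζ.ne' (by norm_num)]
      apply Real.log_le_log (by positivity)
      have h4 : ‖ζ‖ - ‖(y : ℂ)‖ ≤ ‖ζ - (y : ℂ)‖ := norm_sub_norm_le _ _
      rw [Complex.norm_real, Real.norm_eq_abs] at h4
      linarith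
    rw [integral_const, probReal_univ, one_smul] at h3
    exact h3
  have hup : Up μ ζ ≤ Lam ζ + Real.log 2 := by
    have h3 : ∫ y, Real.log ‖ζ - (y : ℂ)‖ ∂μ ≤ ∫ y, (Lam ζ + Real.log 2) ∂μ := by
      apply integral_mono_ae (integrable_log hμ h) (integrable_const _)
      filter_upwards [hμ] with y hy
      rw [hL, ← Real.log_mul hζ.ne' (by norm_num)]
      apply Real.log_le_log
      · exact lt_of_lt_of_le (by linarith) (dist_lower (ζ := ζ) hy)
      · have h4 := dist_upper (ζ := ζ) hy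
        linarith
    rw [integral_const, probReal_univ, one_smul] at h3
    exact h3
  rw [abs_le]
  constructor <;> linarith

/-- The constant: logarithm of the reciprocal of the capacity. -/
def c0 : ℝ := ∑' s, Real.log (Gp s) / 2 ^ (s + 1)

lemma log_Gp_nonneg (s : ℕ) : 0 ≤ Real.log (Gp s) := Real.log_nonneg (by linarith [two_lt_Gp s])

lemma summable_c0 : Summable (fun s : ℕ => Real.log (Gp s) / 2 ^ (s + 1)) := by
  refine Summable.of_nonneg_of_le (fun s => by have := log_Gp_nonneg s; positivity) (fun s => ?_)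
    summable_bd
  have h1 := log_three_Gp s
  have h2 := two_lt_Gp s
  have h3 : Real.log (Gp s) ≤ Real.log (3 * Gp s) := Real.log_le_log (by linarith) (by linarith)
  gcongr
  linarith

lemma c0_nonneg : 0 ≤ c0 := tsum_nonneg fun s => by have := log_Gp_nonneg s; positivity

/-- The sequence of measures. -/
structure Sys (μ : ℕ → ProbabilityMeasure ℝ) : Prop where
  supp : ∀ k, ∀ᵐ y ∂(μ k : Measure ℝ), |y| ≤ 1
  map : ∀ k, (μ k : Measure ℝ).map (fq (Gp k)) = (μ (k + 1) : Measure ℝ)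
  neg : ∀ k, (μ k : Measure ℝ).map (fun x => -x) = (μ k : Measure ℝ)

lemma Up_iter {μ : ℕ → ProbabilityMeasure ℝ} (hμ : Sys μ) {ζ : ℂ} (h : 2 < Dd ζ) (s : ℕ) :
    Up (μ 0) ζ = Up (μ s) (Fc Gp s ζ) / 2 ^ s
      - ∑ j ∈ Finset.range s, Real.log (Gp j) / 2 ^ (j + 1) := by
  induction s with
  | zero => simp [Fc]
  | succ s ih =>
    rw [ih, Finset.sum_range_succ, Up_step (two_lt_Gp s) (hμ.supp s) (hμ.map s) (hμ.neg s)
      (Dd_off Gp two_lt_Gp h s)]
    show _ = Up (μ (s + 1)) (fc (Gp s) (Fc Gp s ζ)) / 2 ^ (s + 1) - _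
    rw [pow_succ]
    field_simp
    ring

/-- The potential off the interval. -/
lemma Up_off {μ : ℕ → ProbabilityMeasure ℝ} (hμ : Sys μ) {ζ : ℂ} (h : 2 < Dd ζ) :
    Up (μ 0) ζ = gr ζ - c0 := by
  have h1 : Tendsto (fun s => Up (μ s) (Fc Gp s ζ) / 2 ^ s - us s ζ) atTop (𝓝 0) := by
    have hb : Tendsto (fun s : ℕ => Real.log 2 / 2 ^ s) atTop (𝓝 0) := by
      have := (tendsto_pow_atTop_nhds_zero_of_lt_one (r := (1 / 2 : ℝ)) (by norm_num)
        (by norm_num)).const_mul (Real.log 2)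
      rw [mul_zero] at this
      refine this.congr fun s => ?_
      rw [one_div, inv_pow, div_eq_mul_inv]
    apply squeeze_zero_norm' _ hb
    filter_upwards [eventually_large Gp two_lt_Gp h] with s hs
    have h2 := Up_large (hμ.supp s) (Dd_off Gp two_lt_Gp h s) hs
    unfold us
    rw [← sub_div, Real.norm_eq_abs, abs_div, abs_of_pos (by positivity : (0 : ℝ) < 2 ^ s)]
    gcongr
  have h2 : Tendsto (fun s => Up (μ s) (Fc Gp s ζ) / 2 ^ s) atTop (𝓝 (gr ζ)) := by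
    have := h1.add (tendsto_us ζ)
    rw [zero_add] at this
    refine this.congr fun s => ?_
    ring
  have h3 := h2.sub summable_c0.hasSum.tendsto_sum_nat
  have h4 : Tendsto (fun _ : ℕ => Up (μ 0) ζ) atTop (𝓝 (gr ζ - c0)) := by
    refine h3.congr fun s => ?_
    exact (Up_iter hμ h s).symm
  exact tendsto_nhds_unique tendsto_const_nhds h4

end

end Pool.Agent.Q73.NG
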