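import Pool.Agent.Q73.NG.Pot

set_option autoImplicit false

/-!
The potential at all points of the plane.
-/

namespace Pool.Agent.Q73.NG

open MeasureTheory Filter Topology Set
open Pool.Agent.Helper973.KG

noncomputable section

/-- Points above `x`. -/
def zn (x : ℝ) (n : ℕ) : ℂ := (x : ℂ) + ((1 / ((n : ℝ) + 1) : ℝ) : ℂ) * Complex.I

lemma norm_zn (x y : ℝ) (n : ℕ) :
    ‖zn x n - (y : ℂ)‖ = √((x - y) ^ 2 + (1 / ((n : ℝ) + 1)) ^ 2) := by
  unfold zn
  rw [show (x : ℂ) + ((1 / ((n : ℝ) + 1) : ℝ) : ℂ) * Complex.I - (y : ℂ)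
    = ((x - y : ℝ) : ℂ) + ((1 / ((n : ℝ) + 1) : ℝ) : ℂ) * Complex.I by push_cast; ring]
  rw [Complex.norm_add_mul_I]

lemma norm_zn_pos (x y : ℝ) (n : ℕ) : 0 < ‖zn x n - (y : ℂ)‖ := by
  rw [norm_zn]
  positivity

lemma zn_off (x : ℝ) (n : ℕ) : 2 < Dd (zn x n) := by
  apply off_of_im
  unfold zn
  simp only [Complex.add_im, Complex.ofReal_im, Complex.mul_im, Complex.ofReal_re, Complex.I_im,
    mul_one, Complex.I_re, mul_zero, add_zero, zero_add]
  positivity

lemma tendsto_inv : Tendsto (fun n : ℕ => 1 / ((n : ℝ) + 1)) atTop (𝓝 0) :=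
  tendsto_one_div_add_atTop_nhds_zero_nat

lemma tendsto_zn (x : ℝ) : Tendsto (zn x) atTop (𝓝 (x : ℂ)) := by
  have h1 : Tendsto (fun n : ℕ => (x : ℂ) + ((1 / ((n : ℝ) + 1) : ℝ) : ℂ) * Complex.I) atTop
      (𝓝 ((x : ℂ) + ((0 : ℝ) : ℂ) * Complex.I)) := by
    apply Tendsto.const_add
    apply Tendsto.mul_const
    exact (Complex.continuous_ofReal.tendsto 0).comp tendsto_inv
  rw [Complex.ofReal_zero, zero_mul, add_zero] at h1
  exact h1

/-- The approximating kernels. -/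
def Hn (x : ℝ) (n : ℕ) (y : ℝ) : ENNReal := ENNReal.ofReal (Real.log (4 / ‖zn x n - (y : ℂ)‖))

/-- The limit kernel. -/
def Hl (x y : ℝ) : ENNReal := if x = y then ⊤ else ENNReal.ofReal (Real.log (4 / |x - y|))

lemma norm_zn_le {x y : ℝ} (hx : |x| ≤ 1) (hy : |y| ≤ 1) (n : ℕ) : ‖zn x n - (y : ℂ)‖ ≤ 3 := by
  rw [norm_zn, Real.sqrt_le_left (by norm_num)]
  have h1 := abs_le.mp hx
  have h2 := abs_le.mp hy
  have h3 : 1 / ((n : ℝ) + 1) ≤ 1 := by
    rw [div_le_one (by positivity)]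
    have : (0 : ℝ) ≤ n := Nat.cast_nonneg n
    linarith
  have h4 : 0 ≤ 1 / ((n : ℝ) + 1) := by positivity
  have h5 : (x - y) ^ 2 ≤ 4 := by
    have : |x - y| ≤ 2 := by rw [abs_le]; constructor <;> linarith
    have h6 := abs_nonneg (x - y)
    rw [← sq_abs]
    nlinarith
  nlinarith

lemma Hn_mono (x y : ℝ) : Monotone (fun n => Hn x n y) := by
  intro n m hnm
  unfold Hn
  apply ENNReal.ofReal_le_ofReal
  apply Real.log_le_log
  · have := norm_zn_pos x y n
    positivity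
  · have h1 := norm_zn_pos x y m
    apply div_le_div_of_nonneg_left (by norm_num) h1
    rw [norm_zn, norm_zn]
    apply Real.sqrt_le_sqrt
    gcongr

lemma tendsto_Hn (x y : ℝ) : Tendsto (fun n => Hn x n y) atTop (𝓝 (Hl x y)) := by
  unfold Hl
  split_ifs with h
  · subst h
    have h1 : ∀ n, Hn x n x = ENNReal.ofReal (Real.log (4 * ((n : ℝ) + 1))) := by
      intro n
      unfold Hn
      rw [norm_zn, sub_self]
      congr 2
      rw [zero_pow (by norm_num), zero_add, Real.sqrt_sq (by positivity)]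
      field_simp
    simp_rw [h1]
    rw [ENNReal.tendsto_ofReal_nhds_top]
    apply Real.tendsto_log_atTop.comp
    apply Tendsto.const_mul_atTop (by norm_num)
    exact tendsto_atTop_add_const_right _ _ tendsto_natCast_atTop_atTop
  · unfold Hn
    apply ENNReal.tendsto_ofReal
    have hne : |x - y| ≠ 0 := by
      rw [abs_ne_zero]
      exact sub_ne_zero.mpr h
    have h1 : Tendsto (fun n => ‖zn x n - (y : ℂ)‖) atTop (𝓝 |x - y|) := by
      have h2 := ((tendsto_zn x).sub_const (y : ℂ)).norm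
      rw [show (x : ℂ) - (y : ℂ) = ((x - y : ℝ) : ℂ) by push_cast; ring, Complex.norm_real,
        Real.norm_eq_abs] at h2
      exact h2
    apply Tendsto.log
    · exact tendsto_const_nhds.div h1 hne
    · positivity

lemma log_div_eq {x y : ℝ} (n : ℕ) :
    Real.log (4 / ‖zn x n - (y : ℂ)‖) = Real.log 4 - Real.log ‖zn x n - (y : ℂ)‖ :=
  Real.log_div (by norm_num) (norm_zn_pos x y n).ne'

lemma int_Hn {μ : ℕ → ProbabilityMeasure ℝ} (hμ : Sys μ) {x : ℝ} (hx : |x| ≤ 1) (n : ℕ) :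
    0 ≤ Real.log 4 + c0 - gr (zn x n) ∧
    ∫⁻ y, Hn x n y ∂(μ 0 : Measure ℝ) = ENNReal.ofReal (Real.log 4 + c0 - gr (zn x n)) := by
  have hoff := zn_off x n
  have hint := integrable_log (hμ.supp 0) hoff
  have hI : ∫ y, Real.log (4 / ‖zn x n - (y : ℂ)‖) ∂(μ 0 : Measure ℝ)
      = Real.log 4 + c0 - gr (zn x n) := by
    simp_rw [log_div_eq]
    rw [integral_sub (integrable_const _) hint, integral_const, probReal_univ, one_smul]
    have := Up_off hμ hoff
    unfold Up at this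
    rw [this]
    ring
  have hnn : 0 ≤ᵐ[(μ 0 : Measure ℝ)] fun y : ℝ => Real.log (4 / ‖zn x n - (y : ℂ)‖) := by
    filter_upwards [hμ.supp 0] with y hy
    apply Real.log_nonneg
    rw [one_le_div (norm_zn_pos x y n)]
    linarith [norm_zn_le hx hy n]
  refine ⟨?_, ?_⟩
  · rw [← hI]
    exact integral_nonneg_of_ae hnn
  · unfold Hn
    rw [← hI, ofReal_integral_eq_lintegral_ofReal _ hnn]
    simp_rw [log_div_eq]
    exact (integrable_const _).sub hint

lemma int_Hl {μ : ℕ → ProbabilityMeasure ℝ} (hμ : Sys μ) {x : ℝ} (hx : |x| ≤ 1) :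
    0 ≤ Real.log 4 + c0 - gr x ∧
    ∫⁻ y, Hl x y ∂(μ 0 : Measure ℝ) = ENNReal.ofReal (Real.log 4 + c0 - gr x) := by
  have h1 : Tendsto (fun n => Real.log 4 + c0 - gr (zn x n)) atTop (𝓝 (Real.log 4 + c0 - gr x)) :=
    tendsto_const_nhds.sub ((cont_gr.tendsto _).comp (tendsto_zn x))
  refine ⟨ge_of_tendsto' h1 fun n => (int_Hn hμ hx n).1, ?_⟩
  have h2 : Tendsto (fun n => ∫⁻ y, Hn x n y ∂(μ 0 : Measure ℝ)) atTop
      (𝓝 (∫⁻ y, Hl x y ∂(μ 0 : Measure ℝ))) := by
    apply lintegral_tendsto_of_tendsto_of_monotone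
    · intro n
      apply Measurable.aemeasurable
      unfold Hn
      fun_prop
    · exact Eventually.of_forall fun y => Hn_mono x y
    · exact Eventually.of_forall fun y => tendsto_Hn x y
  have h3 : Tendsto (fun n => ∫⁻ y, Hn x n y ∂(μ 0 : Measure ℝ)) atTop
      (𝓝 (ENNReal.ofReal (Real.log 4 + c0 - gr x))) := by
    refine (ENNReal.tendsto_ofReal h1).congr fun n => ?_
    exact (int_Hn hμ hx n).2.symm
  exact tendsto_nhds_unique h2 h3

/-- The potential at a real point of the interval. -/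
lemma Up_real {μ : ℕ → ProbabilityMeasure ℝ} (hμ : Sys μ) {x : ℝ} (hx : |x| ≤ 1) :
    (∀ᵐ y ∂(μ 0 : Measure ℝ), x ≠ y) ∧
    Integrable (fun y : ℝ => Real.log ‖(x : ℂ) - (y : ℂ)‖) (μ 0 : Measure ℝ) ∧
    Up (μ 0) x = gr x - c0 := by
  obtain ⟨hA, hl⟩ := int_Hl hμ hx
  have hmeas : Measurable (Hl x) := by
    unfold Hl
    apply Measurable.ite
    · exact measurableSet_eq_fun measurable_const measurable_id
    · exact measurable_const
    · fun_prop
  have hne : ∀ᵐ y ∂(μ 0 : Measure ℝ), x ≠ y := by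
    have h1 : ∀ᵐ y ∂(μ 0 : Measure ℝ), Hl x y < ⊤ :=
      ae_lt_top hmeas (by rw [hl]; exact ENNReal.ofReal_ne_top)
    filter_upwards [h1] with y hy h
    unfold Hl at hy
    rw [if_pos h] at hy
    exact lt_irrefl _ hy
  have hnn : 0 ≤ᵐ[(μ 0 : Measure ℝ)] fun y : ℝ => Real.log (4 / |x - y|) := by
    filter_upwards [hμ.supp 0, hne] with y hy hxy
    apply Real.log_nonneg
    have h1 := abs_le.mp hx
    have h2 := abs_le.mp hy
    have h3 : 0 < |x - y| := abs_pos.mpr (sub_ne_zero.mpr hxy)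
    rw [one_le_div h3, abs_le]
    constructor <;> linarith
  have hlin : ∫⁻ y, ENNReal.ofReal (Real.log (4 / |x - y|)) ∂(μ 0 : Measure ℝ)
      = ENNReal.ofReal (Real.log 4 + c0 - gr x) := by
    rw [← hl]
    apply lintegral_congr_ae
    filter_upwards [hne] with y hy
    unfold Hl
    rw [if_neg hy]
  have hms : Measurable (fun y : ℝ => Real.log (4 / |x - y|)) := by fun_prop
  have hint : Integrable (fun y : ℝ => Real.log (4 / |x - y|)) (μ 0 : Measure ℝ) := by
    refine ⟨hms.aestronglyMeasurable, ?_⟩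
    rw [hasFiniteIntegral_iff_ofReal hnn, hlin]
    exact ENNReal.ofReal_lt_top
  have hI : ∫ y, Real.log (4 / |x - y|) ∂(μ 0 : Measure ℝ) = Real.log 4 + c0 - gr x := by
    rw [integral_eq_lintegral_of_nonneg_ae hnn hms.aestronglyMeasurable, hlin,
      ENNReal.toReal_ofReal hA]
  have hconv : (fun y : ℝ => Real.log ‖(x : ℂ) - (y : ℂ)‖) =ᵐ[(μ 0 : Measure ℝ)]
      fun y => Real.log 4 - Real.log (4 / |x - y|) := by
    filter_upwards [hne] with y hy
    have h3 : 0 < |x - y| := abs_pos.mpr (sub_ne_zero.mpr hy)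
    rw [show (x : ℂ) - (y : ℂ) = ((x - y : ℝ) : ℂ) by push_cast; ring, Complex.norm_real,
      Real.norm_eq_abs, Real.log_div (by norm_num) h3.ne']
    ring
  have hint2 : Integrable (fun y : ℝ => Real.log 4 - Real.log (4 / |x - y|)) (μ 0 : Measure ℝ) :=
    (integrable_const _).sub hint
  refine ⟨hne, hint2.congr hconv.symm, ?_⟩
  unfold Up
  rw [integral_congr_ae hconv, integral_sub (integrable_const _) hint, integral_const,
    probReal_univ, one_smul, hI]
  ring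

/-- The potential at every point of the plane. -/
theorem Up_all {μ : ℕ → ProbabilityMeasure ℝ} (hμ : Sys μ) (ζ : ℂ) :
    (∀ᵐ y : ℝ ∂(μ 0 : Measure ℝ), ζ ≠ (y : ℂ)) ∧
    Integrable (fun y : ℝ => Real.log ‖ζ - (y : ℂ)‖) (μ 0 : Measure ℝ) ∧
    Up (μ 0) ζ = gr ζ - c0 := by
  have hoff : 2 < Dd ζ → (∀ᵐ y : ℝ ∂(μ 0 : Measure ℝ), ζ ≠ (y : ℂ)) ∧
    Integrable (fun y : ℝ => Real.log ‖ζ - (y : ℂ)‖) (μ 0 : Measure ℝ) ∧
    Up (μ 0) ζ = gr ζ - c0 := by
    intro h
    refine ⟨?_, integrable_log (hμ.supp 0) h, Up_off hμ h⟩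
    filter_upwards [hμ.supp 0] with y hy hζ
    have h1 := dist_lower (ζ := ζ) hy
    rw [hζ, sub_self, norm_zero, ← hζ] at h1
    linarith
  by_cases him : ζ.im = 0
  · obtain ⟨x, rfl⟩ : ∃ x : ℝ, (x : ℂ) = ζ := ⟨ζ.re, by apply Complex.ext <;> simp [him]⟩
    rcases lt_or_ge 1 |x| with h | h
    · exact hoff (off_of_real h)
    · obtain ⟨h1, h2, h3⟩ := Up_real hμ h
      refine ⟨?_, h2, h3⟩
      filter_upwards [h1] with y hy h4
      exact hy (by exact_mod_cast h4)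
  · exact hoff (off_of_im him)

end

end Pool.Agent.Q73.NG
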